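import Mathlib
import Pool.Agent.Q203.KaltonPeck

open Pool.Agent.Q203.KaltonPeck
open Filter Topology

namespace Pool.Agent.Results.MP_d3af15_an.NotCompact

/-- The orthonormal family of even unit vectors. -/
theorem orth : Orthonormal ℝ (fun n : ℕ => (lp.single 2 (2 * n) (1 : ℝ) : L2)) := by
  rw [orthonormal_iff_ite]
  intro i j
  rw [lp.inner_single_left]
  by_cases h : i = j
  · subst h
    rw [lp.single_apply_self]
    simp
  · rw [lp.single_apply_ne _ _ _ (by omega)]
    simp [h]

/-- The isometric embedding onto the even coordinates. -/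
noncomputable def j : L2 →ₗᵢ[ℝ] L2 := orth.orthogonalFamily.linearIsometry

theorem j_odd (x : L2) (n : ℕ) : inner ℝ (lp.single 2 (2 * n + 1) (1 : ℝ) : L2) (j x) = (0 : ℝ) := by
  have h1 : HasSum (fun i => x i • (lp.single 2 (2 * i) (1 : ℝ) : L2)) (j x) := by
    have := orth.orthogonalFamily.hasSum_linearIsometry x
    exact this
  have h2 := h1.mapL (innerSL ℝ (lp.single 2 (2 * n + 1) (1 : ℝ) : L2))
  have h3 : ∀ i, (innerSL ℝ (lp.single 2 (2 * n + 1) (1 : ℝ) : L2))
      (x i • (lp.single 2 (2 * i) (1 : ℝ) : L2)) = 0 := by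
    intro i
    rw [map_smul, innerSL_apply_apply, lp.inner_single_left,
      lp.single_apply_ne _ _ _ (by omega)]
    simp
  simp_rw [h3] at h2
  exact h2.unique hasSum_zero

/-- The operator `T = 1 - j j*`. -/
noncomputable def T : L2 →L[ℝ] L2 :=
  ContinuousLinearMap.id ℝ L2 -
    (j.toContinuousLinearMap).comp (ContinuousLinearMap.adjoint j.toContinuousLinearMap)

theorem T_apply (y : L2) :
    T y = y - j (ContinuousLinearMap.adjoint j.toContinuousLinearMap y) := rfl

theorem T_j (x : L2) : T (j x) = 0 := by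
  rw [T_apply]
  have : ContinuousLinearMap.adjoint j.toContinuousLinearMap (j x) = x := by
    refine ext_inner_right ℝ fun y => ?_
    rw [ContinuousLinearMap.adjoint_inner_left]
    exact j.inner_map_map x y
  rw [this, sub_self]

theorem T_odd (n : ℕ) : T (lp.single 2 (2 * n + 1) (1 : ℝ)) = lp.single 2 (2 * n + 1) (1 : ℝ) := by
  rw [T_apply]
  have : ContinuousLinearMap.adjoint j.toContinuousLinearMap
      (lp.single 2 (2 * n + 1) (1 : ℝ)) = 0 := by
    refine ext_inner_right ℝ fun y => ?_
    rw [ContinuousLinearMap.adjoint_inner_left, inner_zero_left]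
    exact j_odd y n
  rw [this, map_zero, sub_zero]

theorem T_not_compact : ¬ IsCompactOperator T := by
  intro h
  obtain ⟨K, hK, hKT⟩ := h.image_closedBall_subset_compact (f := (T : L2 →ₗ[ℝ] L2)) 1
  have hmem : ∀ n : ℕ, (lp.single 2 (2 * n + 1) (1 : ℝ) : L2) ∈ K := by
    intro n
    apply hKT
    refine ⟨lp.single 2 (2 * n + 1) (1 : ℝ), ?_, T_odd n⟩
    rw [mem_closedBall_zero_iff, lp.norm_single (by norm_num)]
    simp
  obtain ⟨a, -, φ, hφ, hlim⟩ := hK.tendsto_subseq hmem
  have hc := hlim.cauchySeq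
  rw [Metric.cauchySeq_iff'] at hc
  obtain ⟨N, hN⟩ := hc 1 one_pos
  have h1 := hN (N + 1) (Nat.le_succ N)
  have hne : φ (N + 1) ≠ φ N := (hφ (Nat.lt_succ_self N)).ne'
  simp only [Function.comp] at h1
  rw [dist_eq_norm] at h1
  have h2 := lp.norm_apply_le_norm (p := 2) (by norm_num)
    ((lp.single 2 (2 * φ (N + 1) + 1) (1 : ℝ) - lp.single 2 (2 * φ N + 1) (1 : ℝ) : L2))
    (2 * φ (N + 1) + 1)
  rw [lp.coeFn_sub, Pi.sub_apply, lp.single_apply_self,
    lp.single_apply_ne _ _ _ (by omega), sub_zero, norm_one] at h2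
  exact absurd h1 (not_lt.2 h2)

/-- There are a singular quasi-linear map `Ω` on `ℓ₂` and a pair `(T, U)` of operators compatible
with `Ω` such that `T - U` is not compact. -/
theorem _root_.Pool.Agent.Results.MP_d3af15_an.NotCompact.result :
    HasNonCompactPair (lp (fun _ : ℕ => ℝ) 2) := by
  refine ⟨fun x => j (Om0 x), T, 0, ⟨?_, 8, ?_⟩, ?_, ?_, ?_⟩
  · intro c x
    simp only
    rw [Om0_smul, map_smul]
  · intro x y
    simp only
    rw [← map_sub, ← map_sub, j.norm_map]
    exact Om0_quasi x y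
  · intro W hWc hW ⟨L, C, hC, hL⟩
    refine singular_Om0 W hWc hW
      ⟨(ContinuousLinearMap.adjoint j.toContinuousLinearMap).toLinearMap ∘ₗ L, C, hC, fun x => ?_⟩
    have h1 : Om0 (x : L2) - ((ContinuousLinearMap.adjoint j.toContinuousLinearMap).toLinearMap ∘ₗ
        L) x = ContinuousLinearMap.adjoint j.toContinuousLinearMap (j (Om0 (x : L2)) - L x) := by
      rw [map_sub]
      congr 1
      refine ext_inner_right ℝ fun y => ?_
      rw [ContinuousLinearMap.adjoint_inner_left]
      exact (j.inner_map_map _ y).symm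
    rw [h1]
    refine le_trans ?_ (hL x)
    have h2 := (ContinuousLinearMap.adjoint j.toContinuousLinearMap).le_opNorm
      (j (Om0 (x : L2)) - L x)
    refine h2.trans ?_
    rw [LinearIsometryEquiv.norm_map]
    exact mul_le_of_le_one_left (norm_nonneg _) j.norm_toContinuousLinearMap_le
  · refine ⟨0, 0, le_rfl, fun x => ?_⟩
    simp only [ContinuousLinearMap.zero_apply, LinearMap.zero_apply, sub_zero, zero_mul]
    rw [Om0_zero, map_zero, T_j]
    simp
  · rw [sub_zero]
    exact T_not_compact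

end Pool.Agent.Results.MP_d3af15_an.NotCompact
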